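import Mathlib
import Pool.Agent.Y359.PE.Ent

/-!
# Regular subtrees
-/

set_option autoImplicit false

namespace Pool.Agent.T2H12.KG

open Finset
open scoped Classical
open Pool.Agent.Y359.PE

/-- the telescoping weights -/
lemma sum_w (n : ℕ) : ∑ c ∈ range n, (1 : ℝ) / ((c + 1) * (c + 2)) = 1 - 1 / (n + 1) := by
  induction n with
  | zero => simp
  | succ n ih =>
    rw [sum_range_succ, ih]
    push_cast
    field_simp
    ring

/-- pigeonhole with the telescoping weights -/
lemma pigeon_w {α : Type} (U : Finset α) (hU : U.Nonempty) (c : α → ℕ) :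
    ∃ c₀ : ℕ, (U.card : ℝ) ≤ ((U.filter fun x => c x = c₀).card : ℝ) * ((c₀ + 1) * (c₀ + 2)) ∧
      (U.filter fun x => c x = c₀).Nonempty := by
  by_contra hcon
  push Not at hcon
  have hc : (0 : ℝ) < U.card := by exact_mod_cast card_pos.2 hU
  set n := (U.sup c) + 1 with hn
  have h1 : ∀ i ∈ range n, ((U.filter fun x => c x = i).card : ℝ) ≤
      U.card * (1 / ((i + 1) * (i + 2))) := by
    intro i _
    by_contra h2
    rw [not_le, mul_one_div, div_lt_iff₀ (by positivity)] at h2
    have h3 := hcon i h2.le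
    rw [h3, card_empty] at h2
    simp at h2
    linarith
  have h2 := sum_le_sum h1
  rw [← mul_sum, sum_w] at h2
  have h3 : ∑ i ∈ range n, (U.filter fun x => c x = i).card = U.card := by
    refine (card_eq_sum_card_fiberwise fun x hx => ?_).symm
    rw [mem_coe, mem_range, hn]
    exact Nat.lt_succ_of_le (Finset.le_sup (f := c) hx)
  have h3' : ∑ i ∈ range n, ((U.filter fun x => c x = i).card : ℝ) = U.card := by
    exact_mod_cast h3
  rw [h3'] at h2
  have h4 : (0 : ℝ) < 1 / ((n : ℝ) + 1) := by positivity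
  have h5 := mul_pos hc h4
  linarith

/-- one level -/
lemma reg_step {α β γ : Type} (U : Finset α) (hU : U.Nonempty) (f : α → β) (g : α → γ)
    (hfg : ∀ x y, g x = g y → f x = f y) (m : ℕ)
    (hreg : ∀ x ∈ U, fc U g x = m) :
    ∃ (U' : Finset α) (c : ℕ), U' ⊆ U ∧ U'.Nonempty ∧
      (∀ x ∈ U', ∀ y ∈ U, g y = g x → y ∈ U') ∧ (∀ x ∈ U', fc U' f x = 2 ^ c * m) ∧
      (U.card : ℝ) ≤ U'.card * (2 * (c + 1) * (c + 2)) := by
  -- the number of the classes of `g` in a class of `f`
  set q : β → ℕ := fun b => ((U.filter fun x => f x = b).image g).card with hq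
  have hcardT : ∀ (W : Finset α) (T : Finset γ), W ⊆ U → T ⊆ W.image g →
      (∀ x ∈ W, ∀ y ∈ U, g y = g x → y ∈ W) →
      (W.filter fun x => g x ∈ T).card = T.card * m := by
    intro W T hW hT hsat
    rw [card_eq_sum_card_fiberwise (s := W.filter fun x => g x ∈ T) (t := T) (f := g)
      (fun x hx => (mem_filter.1 hx).2)]
    rw [← smul_eq_mul, ← sum_const]
    refine sum_congr rfl fun t ht => ?_
    obtain ⟨x, hx, rfl⟩ := mem_image.1 (hT ht)
    rw [← hreg x (hW hx)]
    unfold fc cl
    congr 1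
    ext y
    simp only [mem_filter]
    constructor
    · rintro ⟨⟨h1, _⟩, h3⟩
      exact ⟨hW h1, h3⟩
    · rintro ⟨h1, h2⟩
      refine ⟨⟨hsat x hx y h1 h2, ?_⟩, h2⟩
      rw [h2]
      exact ht
  have hsatf : ∀ b : β, ∀ x ∈ U.filter (fun x => f x = b), ∀ y ∈ U, g y = g x →
      y ∈ U.filter fun x => f x = b := by
    intro b x hx y hy hyx
    obtain ⟨h1, h2⟩ := mem_filter.1 hx
    exact mem_filter.2 ⟨hy, (hfg y x hyx).trans h2⟩
  have hcl : ∀ b : β, (U.filter fun x => f x = b).card = q b * m := by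
    intro b
    rw [← hcardT (U.filter fun x => f x = b) _ (filter_subset _ _) (Subset.refl _) (hsatf b)]
    congr 1
    ext x
    simp only [mem_filter]
    constructor
    · intro h
      exact ⟨h, mem_image_of_mem g (mem_filter.2 h)⟩
    · exact fun h => h.1
  obtain ⟨c, hc1, hc2⟩ := pigeon_w U hU fun x => Nat.log 2 (q (f x))
  set Uc := U.filter fun x => Nat.log 2 (q (f x)) = c with hUc
  have hqpos : ∀ x ∈ U, 0 < q (f x) := by
    intro x hx
    exact card_pos.2 ⟨g x, mem_image_of_mem g (mem_filter.2 ⟨hx, rfl⟩)⟩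
  have hTex : ∀ b : β, ∃ T : Finset γ, T ⊆ (U.filter fun x => f x = b).image g ∧
      (2 ^ c ≤ q b → T.card = 2 ^ c) := by
    intro b
    by_cases h : 2 ^ c ≤ q b
    · obtain ⟨T, hT, hTc⟩ := exists_subset_card_eq h
      exact ⟨T, hT, fun _ => hTc⟩
    · exact ⟨∅, empty_subset _, fun h' => absurd h' h⟩
  choose T hT hTc using hTex
  set U' := Uc.filter fun x => g x ∈ T (f x) with hU'
  have hq1 : ∀ x ∈ Uc, 2 ^ c ≤ q (f x) ∧ q (f x) < 2 ^ (c + 1) := by
    intro x hx
    obtain ⟨h1, h2⟩ := mem_filter.1 hx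
    rw [← h2]
    exact ⟨Nat.pow_log_le_self 2 (hqpos x h1).ne', Nat.lt_pow_succ_log_self (by norm_num) _⟩
  have hcl' : ∀ x ∈ Uc, (U'.filter fun y => f y = f x).card = 2 ^ c * m := by
    intro x hx
    obtain ⟨h1, h2⟩ := mem_filter.1 hx
    rw [← hTc (f x) (hq1 x hx).1, ← hcardT (U.filter fun y => f y = f x) (T (f x))
      (filter_subset _ _) (hT _) (hsatf _)]
    congr 1
    ext y
    simp only [hU', hUc, mem_filter]
    constructor
    · rintro ⟨⟨⟨h3, h4⟩, h5⟩, h6⟩
      rw [h6] at h5
      exact ⟨⟨h3, h6⟩, h5⟩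
    · rintro ⟨⟨h3, h6⟩, h5⟩
      refine ⟨⟨⟨h3, ?_⟩, ?_⟩, h6⟩
      · rw [h6]
        exact h2
      · rw [h6]
        exact h5
  have hU'sub : U' ⊆ U := (filter_subset _ _).trans (filter_subset _ _)
  have hhalf : Uc.card ≤ 2 * U'.card := by
    have e1 : Uc.card = ∑ b ∈ Uc.image f, (Uc.filter fun x => f x = b).card :=
      card_eq_sum_card_image f Uc
    have e2 : U'.card = ∑ b ∈ Uc.image f, (U'.filter fun x => f x = b).card :=
      card_eq_sum_card_fiberwise fun x hx => mem_image_of_mem f (mem_filter.1 hx).1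
    rw [e1, e2, mul_sum]
    refine sum_le_sum fun b hb => ?_
    obtain ⟨x, hx, rfl⟩ := mem_image.1 hb
    rw [hcl' x hx]
    have h1 : (Uc.filter fun y => f y = f x).card ≤ (U.filter fun y => f y = f x).card :=
      card_le_card (filter_subset_filter _ (filter_subset _ _))
    refine h1.trans ?_
    rw [hcl, ← mul_assoc, ← pow_succ']
    exact Nat.mul_le_mul_right _ (hq1 x hx).2.le
  have hne : U'.Nonempty := by
    rw [← card_pos]
    have : 0 < Uc.card := card_pos.2 hc2
    omega
  refine ⟨U', c, hU'sub, hne, ?_, ?_, ?_⟩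
  · intro x hx y hy hyx
    obtain ⟨h1, h2⟩ := mem_filter.1 hx
    obtain ⟨h3, h4⟩ := mem_filter.1 h1
    have h5 := hfg y x hyx
    refine mem_filter.2 ⟨mem_filter.2 ⟨hy, ?_⟩, ?_⟩
    · rw [h5]
      exact h4
    · rw [h5, hyx]
      exact h2
  · intro x hx
    have h1 := hcl' x (mem_filter.1 hx).1
    exact h1
  · have h1 : ((Uc.card : ℕ) : ℝ) ≤ 2 * U'.card := by exact_mod_cast hhalf
    calc (U.card : ℝ) ≤ Uc.card * ((c + 1) * (c + 2)) := hc1
      _ ≤ (2 * U'.card) * ((c + 1) * (c + 2)) :=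
        mul_le_mul_of_nonneg_right h1 (by positivity)
      _ = _ := by ring

/-- all the levels -/
theorem reg_all {α β : Type} (F : ℕ → α → β)
    (hF : ∀ i x y, F (i + 1) x = F (i + 1) y → F i x = F i y) (r : ℕ) (U : Finset α)
    (hU : U.Nonempty) (hinj : ∀ x ∈ U, ∀ y ∈ U, F r x = F r y → x = y) (t : ℕ) (ht : t ≤ r) :
    ∃ (U' : Finset α) (c : ℕ → ℕ), U' ⊆ U ∧ U'.Nonempty ∧
      (∀ i, r - t ≤ i → i ≤ r → ∀ x ∈ U', fc U' (F i) x = 2 ^ (∑ l ∈ Ico i r, c l)) ∧
      (U.card : ℝ) ≤ U'.card * ∏ l ∈ Ico (r - t) r, (2 * ((c l : ℝ) + 1) * (c l + 2)) := by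
  induction t with
  | zero =>
    refine ⟨U, fun _ => 0, Subset.refl _, hU, ?_, ?_⟩
    · intro i hi1 hi2 x hx
      have : i = r := by omega
      subst this
      rw [Ico_self, sum_empty, pow_zero]
      unfold fc
      rw [card_eq_one]
      refine ⟨x, ?_⟩
      ext y
      rw [mem_cl, mem_singleton]
      constructor
      · rintro ⟨h1, h2⟩
        exact hinj y h1 x hx h2
      · rintro rfl
        exact ⟨hx, rfl⟩
    · simp
  | succ t ih =>
    obtain ⟨U₁, c, hsub, hne, h1, h2⟩ := ih (by omega)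
    set j := r - (t + 1) with hj
    have hj1 : r - t = j + 1 := by omega
    have hjr : j < r := by omega
    obtain ⟨U₂, c₀, hsub2, hne2, h3, h4, h5⟩ := reg_step U₁ hne (F j) (F (j + 1)) (hF j)
      (2 ^ (∑ l ∈ Ico (j + 1) r, c l)) (h1 (j + 1) (by omega) (by omega))
    set c' : ℕ → ℕ := fun l => if l = j then c₀ else c l with hc'
    have hcj : c' j = c₀ := by simp [hc']
    have hcl : ∀ i, j + 1 ≤ i → ∑ l ∈ Ico i r, c' l = ∑ l ∈ Ico i r, c l := by
      intro i hi
      refine sum_congr rfl fun l hl => ?_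
      have := (mem_Ico.1 hl).1
      have : l ≠ j := by omega
      simp [hc', this]
    have hFle : ∀ i, j + 1 ≤ i → ∀ x y, F i x = F i y → F (j + 1) x = F (j + 1) y := by
      intro i hi
      induction i, hi using Nat.le_induction with
      | base => exact fun x y h => h
      | succ i hi ih => exact fun x y h => ih x y (hF i x y h)
    refine ⟨U₂, c', hsub2.trans hsub, hne2, ?_, ?_⟩
    · intro i hi1 hi2 x hx
      rcases hi1.eq_or_lt with he | hlt
      · rw [← he, sum_eq_sum_Ico_succ_bot hjr, hcj, pow_add, hcl (j + 1) le_rfl]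
        exact h4 x hx
      · rw [hcl i (by omega), ← h1 i (by omega) hi2 x (hsub2 hx)]
        unfold fc
        congr 1
        ext y
        rw [mem_cl, mem_cl]
        constructor
        · rintro ⟨h6, h7⟩
          exact ⟨hsub2 h6, h7⟩
        · rintro ⟨h6, h7⟩
          exact ⟨h3 x hx y h6 (hFle i (by omega) y x h7), h7⟩
    · have e1 : ∏ l ∈ Ico j r, (2 * ((c' l : ℝ) + 1) * (c' l + 2)) =
          (2 * ((c₀ : ℝ) + 1) * (c₀ + 2)) *
          ∏ l ∈ Ico (j + 1) r, (2 * ((c l : ℝ) + 1) * (c l + 2)) := by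
        rw [prod_eq_prod_Ico_succ_bot hjr, hcj]
        congr 1
        refine prod_congr rfl fun l hl => ?_
        have := (mem_Ico.1 hl).1
        have : l ≠ j := by omega
        simp [hc', this]
      rw [e1]
      rw [hj1] at h2
      refine h2.trans ?_
      rw [← mul_assoc]
      exact mul_le_mul_of_nonneg_right h5 (prod_nonneg fun _ _ => by positivity)

/-- the cost of a level -/
lemma cost_le {η : ℝ} (hη : 0 < η) : ∃ K : ℝ, 0 < K ∧ ∀ c : ℕ,
    Real.log (2 * ((c : ℝ) + 1) * (c + 2)) ≤ η * (c * Real.log 2) + K := by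
  have hl2 : 0 < Real.log 2 := Real.log_pos (by norm_num)
  set s : ℝ := η * Real.log 2 / 2 with hs
  have hs0 : 0 < s := by positivity
  refine ⟨max (Real.log 2 + 2 * (2 * s - 1 - Real.log s)) 1, by positivity, ?_⟩
  intro c
  have hc0 : (0 : ℝ) ≤ c := Nat.cast_nonneg c
  have h1 : Real.log ((c : ℝ) + 2) ≤ s * (c + 2) - 1 - Real.log s := by
    have h2 := Real.log_le_sub_one_of_pos (show 0 < s * ((c : ℝ) + 2) by positivity)
    rw [Real.log_mul hs0.ne' (by positivity)] at h2
    linarith
  have h2 : Real.log ((c : ℝ) + 1) ≤ Real.log ((c : ℝ) + 2) :=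
    Real.log_le_log (by positivity) (by linarith)
  rw [Real.log_mul (by positivity) (by positivity), Real.log_mul (by norm_num) (by positivity)]
  have h3 : 2 * (s * c) = η * (c * Real.log 2) := by
    rw [hs]
    ring
  have h4 := le_max_left (Real.log 2 + 2 * (2 * s - 1 - Real.log s)) 1
  linarith

/-- on a large subset the value of `g` is a function of the value of `f` -/
lemma choose_val {α β γ : Type} (U : Finset α) (f : α → β) (g : α → γ) {n : ℝ}
    (hn : ∀ x ∈ U, (((cl U f x).image g).card : ℝ) ≤ n) :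
    ∃ U' : Finset α, U' ⊆ U ∧ (U.card : ℝ) ≤ n * U'.card ∧
      ∀ x ∈ U', ∀ y ∈ U', f x = f y → g x = g y := by
  have hex : ∀ b : β, ∃ T : Finset γ, T.card ≤ 1 ∧ ∀ t' ∈ (U.filter fun x => f x = b).image g,
      ((U.filter fun x => f x = b).filter fun x => g x = t').card ≤
      ((U.filter fun x => f x = b).filter fun x => g x ∈ T).card := by
    intro b
    rcases ((U.filter fun x => f x = b).image g).eq_empty_or_nonempty with h0 | h0
    · refine ⟨∅, by simp, fun t' ht' => ?_⟩
      rw [h0] at ht'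
      simp at ht'
    · obtain ⟨t, _, ht⟩ := exists_max_image _
        (fun t => ((U.filter fun x => f x = b).filter fun x => g x = t).card) h0
      refine ⟨{t}, by simp, fun t' ht' => ?_⟩
      simp only [mem_singleton]
      exact ht t' ht'
  choose T hT1 hT2 using hex
  refine ⟨U.filter fun x => g x ∈ T (f x), filter_subset _ _, ?_, ?_⟩
  · have e1 : U.card = ∑ b ∈ U.image f, (U.filter fun x => f x = b).card :=
      card_eq_sum_card_image f U
    have e2 : (U.filter fun x => g x ∈ T (f x)).card =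
        ∑ b ∈ U.image f, ((U.filter fun x => f x = b).filter fun x => g x ∈ T b).card := by
      rw [card_eq_sum_card_fiberwise (s := U.filter fun x => g x ∈ T (f x)) (t := U.image f)
        (f := f) fun x hx => mem_image_of_mem f (mem_filter.1 hx).1]
      refine sum_congr rfl fun b _ => ?_
      congr 1
      ext y
      simp only [mem_filter]
      constructor
      · rintro ⟨⟨h1, h2⟩, h3⟩
        rw [h3] at h2
        exact ⟨⟨h1, h3⟩, h2⟩
      · rintro ⟨⟨h1, h3⟩, h2⟩
        refine ⟨⟨h1, ?_⟩, h3⟩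
        rw [h3]
        exact h2
    rw [e1, e2]
    push_cast
    rw [mul_sum]
    refine sum_le_sum fun b hb => ?_
    obtain ⟨x, hx, rfl⟩ := mem_image.1 hb
    have h1 : (U.filter fun y => f y = f x).card =
        ∑ t ∈ (U.filter fun y => f y = f x).image g,
          ((U.filter fun y => f y = f x).filter fun y => g y = t).card :=
      card_eq_sum_card_image g _
    have h2 := sum_le_sum (hT2 (f x))
    rw [← h1, sum_const, smul_eq_mul] at h2
    have h3 := hn x hx
    have h4 : (((U.filter fun y => f y = f x).card : ℕ) : ℝ) ≤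
        (((U.filter fun y => f y = f x).image g).card : ℝ) *
          (((U.filter fun y => f y = f x).filter fun y => g y ∈ T (f x)).card : ℝ) := by
      exact_mod_cast h2
    refine h4.trans (mul_le_mul_of_nonneg_right ?_ (Nat.cast_nonneg _))
    exact h3
  · intro x hx y hy hxy
    obtain ⟨_, h1⟩ := mem_filter.1 hx
    obtain ⟨_, h2⟩ := mem_filter.1 hy
    rw [← hxy] at h2
    exact card_le_one.1 (hT1 (f x)) _ h1 _ h2

end Pool.Agent.T2H12.KG
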