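import Mathlib
import Pool.Agent.T2H12.KF.Core
import Pool.Agent.T2H12.KG.Reg

/-!
# Sums: the exponents of many primes are determined by the exponents of few primes
-/

set_option autoImplicit false

namespace Pool.Agent.T2H12.KG

open Finset
open scoped Classical
open Pool.Agent.Y359.PE Pool.Agent.T2H12.KF

/-- **The core**, with dependent primes. -/
theorem coreQ {δ : ℝ} (hδ : 0 < δ) (hδ1 : δ ≤ 1) : ∃ E C₂ L₀ : ℝ, 0 < E ∧ 0 < C₂ ∧ 0 < L₀ ∧
    ∀ (Q : Finset ℕ) (L : List (ℕ × ℝ)) (U V : Finset ℤ), (∀ q ∈ Q, q.Prime) →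
      (∀ a ∈ L, a.1 ∈ Q) → U.Nonempty → V.Nonempty → (0 : ℤ) ∉ U →
      (∀ x ∈ U, ∀ y ∈ U, (∀ a ∈ L, fa x a.1 = fa y a.1) → ∀ q ∈ Q, fa x q = fa y q) →
      Good (gq Q) L U →
      C₂ * (Real.log U.card + Real.log V.card) ≤ tot E L →
      lo U V ≤ δ * (Real.log U.card + Real.log V.card) + L.length * L₀ := by
  set d : ℝ := δ / 5 with hd
  have hd0 : 0 < d := by positivity
  have hd1 : d ≤ 1 := by
    rw [hd]
    linarith
  obtain ⟨E, C₂, hE, hC₂, hdd⟩ := dd_final hd0 hd1
  obtain ⟨C, hC1, hB⟩ := exists_bitC hd0 hd1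
  have hCd : 1 ≤ C / d := by
    rw [le_div_iff₀ hd0]
    linarith
  have hlC : 0 ≤ Real.log (C / d) := Real.log_nonneg hCd
  have hl2 : 0 < Real.log 2 := Real.log_pos (by norm_num)
  refine ⟨E, C₂, 2 * Real.log 2 + 1 + Real.log (C / d), hE, hC₂, by positivity, ?_⟩
  intro Q L U V hQ hLQ hU hV h0 hdet hG htot
  have hne : ∀ x ∈ U, x ≠ 0 := fun x hx h => h0 (h ▸ hx)
  have h1 := hdd (gp Q) (gq Q) L U V hU hV (fun x hx => eq_gp_mul_gq hQ (hne x hx))
    (fun a ha => ⟨hQ _ (hLQ a ha), HG_gp hQ (hLQ a ha) h0⟩) hG htot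
  have h2 := spine_list hd0 hd1 hC1 hB (L.map Prod.fst) U V (by
    intro p hp
    obtain ⟨a, ha, rfl⟩ := List.mem_map.1 hp
    exact hQ _ (hLQ a ha)) h0 hU hV
  rw [List.length_map] at h2
  have h3 := lo_eq U V hU hV (fL (L.map Prod.fst)) (gp Q) (by
    intro x hx y hy
    rw [fL_eq_iff, gp_eq_iff hQ]
    constructor
    · intro h
      exact hdet x hx y hy fun a ha => h _ (List.mem_map_of_mem ha)
    · intro h p hp
      obtain ⟨a, ha, rfl⟩ := List.mem_map.1 hp
      exact h _ (hLQ a ha))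
  have h4 := h_le_log_card U (fL (L.map Prod.fst))
  have h5 : 4 * d * (h U (fL (L.map Prod.fst)) + Real.log V.card) ≤
      4 * d * (Real.log U.card + Real.log V.card) :=
    mul_le_mul_of_nonneg_left (by linarith) (by positivity)
  have h6 : δ * (Real.log U.card + Real.log V.card) =
      5 * d * (Real.log U.card + Real.log V.card) := by
    rw [hd]
    ring
  rw [h3, h6]
  linarith

/-- the list of the primes with the parameters `2 ^ c i` -/
noncomputable def lc : List ℕ → (ℕ → ℕ) → List (ℕ × ℝ)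
  | [], _ => []
  | p :: L, c => (p, (2 : ℝ) ^ (c 0)) :: lc L (fun i => c (i + 1))

lemma lc_length : ∀ (Lp : List ℕ) (c : ℕ → ℕ), (lc Lp c).length = Lp.length := by
  intro Lp
  induction Lp with
  | nil => intro c; rfl
  | cons p L ih =>
    intro c
    change (lc L (fun i => c (i + 1))).length + 1 = L.length + 1
    rw [ih]

lemma lc_fst : ∀ (Lp : List ℕ) (c : ℕ → ℕ), (lc Lp c).map Prod.fst = Lp := by
  intro Lp
  induction Lp with
  | nil => intro c; rfl
  | cons p L ih =>
    intro c
    change p :: (lc L (fun i => c (i + 1))).map Prod.fst = p :: L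
    rw [ih]

lemma tot_lc {K E : ℝ} (hK : 1 ≤ K) (hE : 0 < E) : ∀ (Lp : List ℕ) (c : ℕ → ℕ),
    K * ∑ i ∈ range Lp.length, ((c i : ℝ) * Real.log 2) -
      Lp.length * (K * (Real.log K + Real.log (max E 1))) ≤ tot E (lc Lp c) := by
  have hlK : 0 ≤ Real.log K := Real.log_nonneg hK
  have hE1 : 1 ≤ max E 1 := le_max_right _ _
  have hlE : 0 ≤ Real.log (max E 1) := Real.log_nonneg hE1
  intro Lp
  induction Lp with
  | nil => intro c; simp [lc, tot]
  | cons p L ih =>
    intro c
    have h1 := ih (fun i => c (i + 1))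
    change _ ≤ tot E (lc L (fun i => c (i + 1))) + if E ≤ (2 : ℝ) ^ (c 0) then (2 : ℝ) ^ (c 0) else 0
    rw [List.length_cons, sum_range_succ']
    push_cast
    have h2 : K * ((c 0 : ℝ) * Real.log 2) - K * (Real.log K + Real.log (max E 1)) ≤
        if E ≤ (2 : ℝ) ^ (c 0) then (2 : ℝ) ^ (c 0) else 0 := by
      set t : ℝ := (c 0 : ℝ) * Real.log 2 with ht
      have ht2 : (2 : ℝ) ^ (c 0) = Real.exp t := by
        rw [ht, ← Real.log_pow, Real.exp_log (by positivity)]
      rw [ht2]
      split_ifs with h3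
      · have h4 := Real.add_one_le_exp (t - Real.log K)
        rw [Real.exp_sub, Real.exp_log (by linarith), le_div_iff₀ (by linarith)] at h4
        have h5 : 0 ≤ K * Real.log (max E 1) := by positivity
        nlinarith
      · have h4 : t ≤ Real.log (max E 1) := by
          rw [not_le] at h3
          have h5 := Real.log_le_log (Real.exp_pos _) h3.le
          rw [Real.log_exp] at h5
          exact h5.trans (Real.log_le_log hE (le_max_left _ _))
        have h5 : K * t ≤ K * Real.log (max E 1) := mul_le_mul_of_nonneg_left h4 (by linarith)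
        have h6 : 0 ≤ K * Real.log K := by positivity
        linarith
    have h3 : K * (∑ i ∈ range L.length, ((c (i + 1) : ℝ) * Real.log 2) + (c 0 : ℝ) * Real.log 2) -
        ((L.length : ℝ) + 1) * (K * (Real.log K + Real.log (max E 1))) =
        (K * ∑ i ∈ range L.length, ((c (i + 1) : ℝ) * Real.log 2) -
        L.length * (K * (Real.log K + Real.log (max E 1)))) +
        (K * ((c 0 : ℝ) * Real.log 2) - K * (Real.log K + Real.log (max E 1))) := by ring
    rw [h3]
    exact add_le_add h1 h2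

/-- the coarse data -/
def FF (G : ℤ → ℤ) (Lp : List ℕ) (i : ℕ) (x : ℤ) : ℤ × List ℕ :=
  (G x, (Lp.take i).map fun p => fa x p)

lemma FF_eq_iff {G : ℤ → ℤ} {Lp : List ℕ} {i : ℕ} {x y : ℤ} :
    FF G Lp i x = FF G Lp i y ↔ G x = G y ∧ ∀ p ∈ Lp.take i, fa x p = fa y p := by
  unfold FF
  rw [Prod.mk.injEq, List.map_inj_left]

lemma FF_mono (G : ℤ → ℤ) (Lp : List ℕ) (i : ℕ) (x y : ℤ) (h : FF G Lp (i + 1) x = FF G Lp (i + 1) y) :
    FF G Lp i x = FF G Lp i y := by
  rw [FF_eq_iff] at h ⊢
  exact ⟨h.1, fun p hp => h.2 p (List.take_subset_take_left Lp (Nat.le_succ i) hp)⟩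

/-- regular sets are good -/
lemma good_of_reg {G : ℤ → ℤ} : ∀ (Lp : List ℕ) (c : ℕ → ℕ) (U : Finset ℤ),
    (∀ i, i ≤ Lp.length → ∀ x ∈ U, fc U (FF G Lp i) x = 2 ^ (∑ l ∈ Ico i Lp.length, c l)) →
    Good G (lc Lp c) U := by
  intro Lp
  induction Lp with
  | nil => intro c U _; exact trivial
  | cons p L ih =>
    intro c U h
    refine ⟨?_, ?_⟩
    · intro x hx w
      have h0 := h 0 (Nat.zero_le _) x hx
      have e0 : cl U (FF G (p :: L) 0) x = U.filter fun x' => G x' = G x := by
        ext y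
        rw [mem_cl, FF_eq_iff, mem_filter]
        simp
      have h0' : (U.filter fun x' => G x' = G x).card =
          2 ^ (∑ l ∈ Ico 0 (p :: L).length, c l) := by
        rw [← h0, ← e0]
        rfl
      rcases (U.filter fun x' => G x' = G x ∧ fa x' p = w).eq_empty_or_nonempty with h1 | ⟨y, hy⟩
      · rw [h1, card_empty, Nat.cast_zero, mul_zero]
        positivity
      · obtain ⟨hyU, hyG, hyw⟩ := mem_filter.1 hy
        have h2 := h 1 (by simp) y hyU
        have e1 : cl U (FF G (p :: L) 1) y = U.filter fun x' => G x' = G x ∧ fa x' p = w := by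
          ext z
          rw [mem_cl, FF_eq_iff, mem_filter]
          simp [hyG, hyw]
        have h2' : (U.filter fun x' => G x' = G x ∧ fa x' p = w).card =
            2 ^ (∑ l ∈ Ico 1 (p :: L).length, c l) := by
          rw [← h2, ← e1]
          rfl
        rw [h0', h2', sum_eq_sum_Ico_succ_bot (by simp : 0 < (p :: L).length), pow_add]
        push_cast
        exact le_rfl
    · intro w
      refine ih (fun i => c (i + 1)) _ ?_
      intro i hi x hx
      obtain ⟨hxU, hxw⟩ := mem_filter.1 hx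
      have h2 := h (i + 1) (by simpa using hi) x hxU
      have e1 : cl (U.filter fun x' => fa x' p = w) (FF G L i) x =
          cl U (FF G (p :: L) (i + 1)) x := by
        ext z
        rw [mem_cl, mem_cl, FF_eq_iff, FF_eq_iff, mem_filter]
        simp only [List.take_succ_cons, List.mem_cons, forall_eq_or_imp, hxw]
        tauto
      unfold fc at h2 ⊢
      rw [e1, h2]
      congr 1
      rw [List.length_cons, ← sum_Ico_add' c i L.length 1]

end Pool.Agent.T2H12.KG
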