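import Mathlib
import Pool.Agent.T2H12.KG.CoreQ

/-!
# Sums: few independent primes
-/

set_option autoImplicit false

namespace Pool.Agent.T2H12.KG

open Finset
open scoped Classical
open Pool.Agent.Y359.PE Pool.Agent.T2H12.KF

/-- many elements have a large class -/
lemma large_classes {α β : Type} (A : Finset α) (hA : A.Nonempty) (G : α → β) {κ : ℝ}
    (ha : 0 < Real.log A.card) (hκ : 0 ≤ κ)
    (hh : h A G ≤ (1 - κ) * Real.log A.card) :
    κ / 2 * A.card ≤
      ((A.filter fun x => Real.exp (κ / 2 * Real.log A.card) ≤ fc A G x).card : ℝ) := by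
  have hc : (0 : ℝ) < A.card := by exact_mod_cast card_pos.2 hA
  set a := Real.log A.card with had
  set S := A.filter fun x => Real.exp (κ / 2 * a) ≤ fc A G x with hS
  have h1 : ∑ x ∈ A, Real.log (fc A G x) = A.card * (a - h A G) := by
    have h2 : (A.card : ℝ) * h A G = ∑ x ∈ A, (Real.log A.card - Real.log (fc A G x)) := by
      unfold h
      rw [mul_div_cancel₀ _ hc.ne']
    rw [mul_sub, h2, sum_sub_distrib, sum_const, nsmul_eq_mul]
    ring
  have h2 : ∑ x ∈ A, Real.log (fc A G x) ≤ ∑ x ∈ A, ((if x ∈ S then a else 0) + κ / 2 * a) := by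
    refine sum_le_sum fun x hx => ?_
    have h3 := fc_posR (f := G) hx
    split_ifs with h4
    · have h5 : Real.log (fc A G x) ≤ a := Real.log_le_log h3 (by exact_mod_cast fc_le)
      have h6 : 0 ≤ κ / 2 * a := by positivity
      linarith
    · have h5 : (fc A G x : ℝ) < Real.exp (κ / 2 * a) := by
        by_contra hcon
        exact h4 (mem_filter.2 ⟨hx, not_lt.1 hcon⟩)
      have h6 := Real.log_le_log h3 h5.le
      rw [Real.log_exp] at h6
      linarith
  rw [h1, sum_add_distrib, ← sum_filter, sum_const, sum_const, nsmul_eq_mul, nsmul_eq_mul] at h2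
  have h3 : A.filter (fun x => x ∈ S) = S := by
    ext x
    rw [mem_filter]
    exact ⟨fun h => h.2, fun h => ⟨(mem_filter.1 h).1, h⟩⟩
  rw [h3] at h2
  have h4 : (A.card : ℝ) * (κ * a) ≤ A.card * (a - h A G) :=
    mul_le_mul_of_nonneg_left (by linarith) hc.le
  have h5 : κ / 2 * A.card * a ≤ S.card * a := by linarith
  exact le_of_mul_le_mul_right h5 ha

/-- the number of the values when the classes are large -/
lemma image_card_le {α β : Type} (A S : Finset α) (G : α → β) {t : ℝ}
    (h : ∀ x ∈ S, t ≤ fc A G x) : ((S.image G).card : ℝ) * t ≤ A.card := by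
  have h1 : ∑ g ∈ S.image G, (A.filter fun x => G x = g).card ≤ A.card := by
    rw [← card_biUnion]
    · refine card_le_card fun x hx => ?_
      obtain ⟨g, _, hg⟩ := mem_biUnion.1 hx
      exact (mem_filter.1 hg).1
    · intro g _ g' _ hgg
      refine disjoint_filter.2 fun x _ h1 h2 => hgg (h1.symm.trans h2)
  have h2 : ∑ g ∈ S.image G, ((A.filter fun x => G x = g).card : ℝ) ≤ A.card := by
    exact_mod_cast h1
  refine le_trans ?_ h2
  rw [← nsmul_eq_mul, ← sum_const]
  refine sum_le_sum fun g hg => ?_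
  obtain ⟨x, hx, rfl⟩ := mem_image.1 hg
  exact h x hx

/-- **The sum side.** -/
theorem sum_side {κ δ₁ : ℝ} (hκ : 0 < κ) (hδ₁ : 0 < δ₁) (hδκ : δ₁ ≤ κ / 4) (hδ2 : δ₁ ≤ 1 / 2)
    (M : ℝ) : ∃ δ a₀ : ℝ, 0 < δ ∧ 0 < a₀ ∧
    ∀ (A : Finset ℤ) (P Q : Finset ℕ), A.Nonempty → (0 : ℤ) ∉ A → (∀ q ∈ Q, q.Prime) → P ⊆ Q →
      a₀ ≤ Real.log A.card → (P.card : ℝ) ≤ δ * Real.log A.card →
      (∀ x ∈ A, (((cl A (fun y => fun p => if p ∈ P then fa y p else 0) x).image
        fun y => fun q => if q ∈ Q then fa y q else 0).card : ℝ) ≤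
          Real.exp (δ * Real.log A.card)) →
      h A (gq Q) ≤ (1 - κ) * Real.log A.card →
      ∃ U ⊆ A, U.Nonempty ∧ (1 - δ₁) * Real.log A.card ≤ Real.log U.card ∧
        ∀ V : Finset ℤ, V.Nonempty → Real.log V.card ≤ M * Real.log A.card →
          lo U V ≤ δ₁ * (Real.log U.card + Real.log V.card) := by
  have hl2 : 0 < Real.log 2 := Real.log_pos (by norm_num)
  obtain ⟨E, C₂, L₀, hE, hC₂, hL₀, hcore⟩ := coreQ (half_pos hδ₁) (by linarith : δ₁ / 2 ≤ 1)
  obtain ⟨Kη, hKη, hcost⟩ := cost_le (η := δ₁ / 4) (by positivity)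
  set K : ℝ := max 1 (8 * (C₂ * (1 + M)) / κ) with hK
  have hK1 : 1 ≤ K := le_max_left _ _
  have hlK : 0 ≤ Real.log K := Real.log_nonneg hK1
  have hlE : 0 ≤ Real.log (max E 1) := Real.log_nonneg (le_max_right _ _)
  set B := Real.log K + Real.log (max E 1) with hB
  have hB0 : 0 ≤ B := by positivity
  set δ : ℝ := min (min (δ₁ / 4) (δ₁ / (4 * Kη))) (min (κ / (8 * (B + 1))) (δ₁ / (4 * L₀)))
    with hδ
  have hδ0 : 0 < δ := by positivity
  have hδa : δ ≤ δ₁ / 4 := (min_le_left _ _).trans (min_le_left _ _)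
  have hδb : δ * Kη ≤ δ₁ / 4 := by
    have h1 : δ ≤ δ₁ / (4 * Kη) := (min_le_left _ _).trans (min_le_right _ _)
    have h2 := mul_le_mul_of_nonneg_right h1 hKη.le
    have h3 : δ₁ / (4 * Kη) * Kη = δ₁ / 4 := by field_simp
    linarith
  have hδc : δ * B ≤ κ / 8 := by
    have h1 : δ ≤ κ / (8 * (B + 1)) := (min_le_right _ _).trans (min_le_left _ _)
    have h2 := mul_le_mul_of_nonneg_right h1 (by linarith : 0 ≤ B + 1)
    have h3 : κ / (8 * (B + 1)) * (B + 1) = κ / 8 := by field_simp
    nlinarith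
  have hδd : δ * L₀ ≤ δ₁ / 4 := by
    have h1 : δ ≤ δ₁ / (4 * L₀) := (min_le_right _ _).trans (min_le_right _ _)
    have h2 := mul_le_mul_of_nonneg_right h1 hL₀.le
    have h3 : δ₁ / (4 * L₀) * L₀ = δ₁ / 4 := by field_simp
    linarith
  refine ⟨δ, max 1 (4 * |Real.log (κ / 2)| / δ₁), hδ0, by positivity, ?_⟩
  intro A P Q hA h0 hQ hPQ ha₀ hP hdet hh
  set a := Real.log A.card with had
  have ha1 : 1 ≤ a := (le_max_left _ _).trans ha₀
  have ha0 : 0 < a := by linarith
  have hc : (0 : ℝ) < A.card := by exact_mod_cast card_pos.2 hA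
  have hexpa : Real.exp a = A.card := Real.exp_log hc
  have hlogκ : -Real.log (κ / 2) ≤ δ₁ / 4 * a := by
    have h1 := (le_max_right _ _).trans ha₀
    rw [div_le_iff₀ hδ₁] at h1
    have h2 := neg_abs_le (Real.log (κ / 2))
    linarith
  have hne : ∀ x ∈ A, x ≠ 0 := fun x hx h => h0 (h ▸ hx)
  -- the large classes
  have s1 := large_classes A hA (gq Q) ha0 hκ.le hh
  rw [← had] at s1
  set A₁ := A.filter fun x => Real.exp (κ / 2 * a) ≤ fc A (gq Q) x with hA₁
  have hA₁A : A₁ ⊆ A := filter_subset _ _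
  have hA₁c : (0 : ℝ) < A₁.card := lt_of_lt_of_le (by positivity) s1
  have hinst : ∀ i₁ i₂ : DecidableEq ℤ, @Finset.image ℤ ℤ i₁ (gq Q) A₁ =
      @Finset.image ℤ ℤ i₂ (gq Q) A₁ := fun i₁ i₂ => by rw [Subsingleton.elim i₁ i₂]
  have s2 : ((A₁.image (gq Q)).card : ℝ) * Real.exp (κ / 2 * a) ≤ A.card := by
    have h := image_card_le A A₁ (gq Q) fun x hx => (mem_filter.1 hx).2
    rw [hinst _ Int.instDecidableEq] at h
    exact h
  -- the determined part
  obtain ⟨A₂, hA₂, s3, hdet₂⟩ := choose_val A₁ (fun y : ℤ => fun p => if p ∈ P then fa y p else 0)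
    (fun y : ℤ => fun q => if q ∈ Q then fa y q else 0) (n := Real.exp (δ * a)) (by
      intro x hx
      refine le_trans ?_ (hdet x (hA₁A hx))
      have : ((cl A₁ (fun y : ℤ => fun p => if p ∈ P then fa y p else 0) x).image
          fun y => fun q => if q ∈ Q then fa y q else 0) ⊆
          (cl A (fun y : ℤ => fun p => if p ∈ P then fa y p else 0) x).image
          fun y => fun q => if q ∈ Q then fa y q else 0 := by
        refine image_subset_image fun y hy => ?_
        rw [mem_cl] at hy ⊢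
        exact ⟨hA₁A hy.1, hy.2⟩
      exact_mod_cast card_le_card this)
  have hA₂c : (0 : ℝ) < A₂.card := by
    by_contra hcon
    have h1 : (A₂.card : ℝ) = 0 := le_antisymm (not_lt.1 hcon) (Nat.cast_nonneg _)
    rw [h1, mul_zero] at s3
    linarith
  have hA₂n : A₂.Nonempty := card_pos.1 (by exact_mod_cast hA₂c)
  -- the regular part
  set Lp := P.toList with hLp
  set r := Lp.length with hr
  have hrc : (r : ℝ) ≤ δ * a := by
    rw [hr, hLp, Finset.length_toList]
    exact hP
  have hmem : ∀ p, p ∈ Lp ↔ p ∈ P := fun p => Finset.mem_toList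
  have hA₂A : A₂ ⊆ A := hA₂.trans hA₁A
  obtain ⟨U, c, hUA₂, hU, hreg, s4⟩ := reg_all (FF (gq Q) Lp) (FF_mono (gq Q) Lp) r A₂ hA₂n (by
    intro x hx y hy hxy
    rw [FF_eq_iff] at hxy
    obtain ⟨h1, h2⟩ := hxy
    have h3 : ∀ q ∈ Q, fa x q = fa y q := by
      have h4 := hdet₂ x hx y hy (by
        funext p
        split_ifs with hp
        · exact h2 p (by rw [hr, List.take_length]; exact (hmem p).2 hp)
        · rfl)
      intro q hq
      have h5 := congrFun h4 q
      simpa [hq] using h5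
    have h4 : gp Q x = gp Q y := (gp_eq_iff hQ).2 h3
    rw [eq_gp_mul_gq hQ (hne x (hA₂A hx)), eq_gp_mul_gq hQ (hne y (hA₂A hy)), h4, h1]) r le_rfl
  rw [Nat.sub_self] at s4
  have hUA : U ⊆ A := hUA₂.trans hA₂A
  have hUc : (0 : ℝ) < U.card := by exact_mod_cast card_pos.2 hU
  set u := Real.log U.card with hu
  have hua : u ≤ a := Real.log_le_log hUc (by exact_mod_cast card_le_card hUA)
  -- the classes of `U`
  set T : ℝ := ∑ i ∈ range r, ((c i : ℝ) * Real.log 2) with hT
  have hfib : ∀ x ∈ U, (U.filter fun y => gq Q y = gq Q x).card = 2 ^ (∑ l ∈ range r, c l) := by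
    intro x hx
    have h1 := hreg 0 (by omega) (Nat.zero_le _) x hx
    rw [← Nat.Ico_zero_eq_range, ← h1]
    unfold fc
    congr 1
    ext y
    rw [mem_cl, mem_filter, FF_eq_iff]
    simp
  have hTlog : Real.log ((2 ^ (∑ l ∈ range r, c l) : ℕ) : ℝ) = T := by
    push_cast
    rw [Real.log_pow, hT, ← sum_mul]
    push_cast
    rfl
  have hTa : T ≤ a := by
    obtain ⟨x, hx⟩ := hU
    rw [← hTlog, ← hfib x hx]
    refine Real.log_le_log ?_ ?_
    · have h9 : (U.filter fun y => gq Q y = gq Q x).Nonempty := ⟨x, mem_filter.2 ⟨hx, rfl⟩⟩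
      exact_mod_cast card_pos.2 h9
    · exact_mod_cast card_le_card ((filter_subset _ _).trans hUA)
  have hT0 : 0 ≤ T := sum_nonneg fun _ _ => by positivity
  -- the size of `U`
  have s5 : Real.log A₂.card ≤ u + ∑ l ∈ range r,
      Real.log (2 * ((c l : ℝ) + 1) * (c l + 2)) := by
    have h1 := Real.log_le_log hA₂c s4
    rw [Real.log_mul hUc.ne' (prod_pos fun _ _ => by positivity).ne',
      Real.log_prod (fun _ _ => by positivity), Nat.Ico_zero_eq_range] at h1
    exact h1
  have s6 : ∑ l ∈ range r, Real.log (2 * ((c l : ℝ) + 1) * (c l + 2)) ≤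
      δ₁ / 4 * T + r * Kη := by
    refine (sum_le_sum fun l _ => hcost (c l)).trans (le_of_eq ?_)
    rw [sum_add_distrib, sum_const, card_range, nsmul_eq_mul, ← mul_sum]
  have s7 : Real.log (κ / 2) + a - δ * a ≤ Real.log A₂.card := by
    have h1 : κ / 2 * A.card ≤ Real.exp (δ * a) * A₂.card := s1.trans s3
    have h2 := Real.log_le_log (by positivity) h1
    rw [Real.log_mul (by positivity) hc.ne', Real.log_mul (Real.exp_pos _).ne' hA₂c.ne',
      Real.log_exp] at h2
    linarith
  have s8 : (1 - δ₁) * a ≤ u := by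
    have h1 : (r : ℝ) * Kη ≤ δ₁ / 4 * a := by
      have h2 := mul_le_mul_of_nonneg_right hrc hKη.le
      have h3 := mul_le_mul_of_nonneg_right hδb ha0.le
      linarith
    have h2 : δ₁ / 4 * T ≤ δ₁ / 4 * a := mul_le_mul_of_nonneg_left hTa (by positivity)
    have h3 : δ * a ≤ δ₁ / 4 * a := mul_le_mul_of_nonneg_right hδa ha0.le
    linarith
  -- the entropy of the exponents
  have s9 : κ / 4 * a ≤ T := by
    have h1 : (U.card : ℝ) = ((U.image (gq Q)).card : ℝ) *
        ((2 ^ (∑ l ∈ range r, c l) : ℕ) : ℝ) := by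
      have h2 : U.card = ∑ g ∈ U.image (gq Q), (U.filter fun x => gq Q x = g).card :=
        card_eq_sum_card_image (gq Q) U
      have h3 : ∑ g ∈ U.image (gq Q), (U.filter fun x => gq Q x = g).card =
          ∑ _g ∈ U.image (gq Q), 2 ^ (∑ l ∈ range r, c l) := by
        refine sum_congr rfl fun g hg => ?_
        obtain ⟨x, hx, rfl⟩ := mem_image.1 hg
        exact hfib x hx
      rw [h3, sum_const, smul_eq_mul] at h2
      exact_mod_cast h2
    have hIc : (0 : ℝ) < (U.image (gq Q)).card := by exact_mod_cast card_pos.2 (hU.image _)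
    have h2 : ((U.image (gq Q)).card : ℝ) ≤ (A₁.image (gq Q)).card := by
      exact_mod_cast card_le_card (image_subset_image (hUA₂.trans hA₂))
    have h3 : Real.log (U.image (gq Q)).card ≤ a - κ / 2 * a := by
      have h4 : ((U.image (gq Q)).card : ℝ) * Real.exp (κ / 2 * a) ≤ A.card :=
        (mul_le_mul_of_nonneg_right h2 (Real.exp_pos _).le).trans s2
      have h5 := Real.log_le_log (by positivity) h4
      rw [Real.log_mul hIc.ne' (Real.exp_pos _).ne', Real.log_exp] at h5
      linarith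
    have h4 : u = Real.log (U.image (gq Q)).card + T := by
      rw [hu, h1, Real.log_mul hIc.ne' (by positivity), hTlog]
    have h5 : δ₁ * a ≤ κ / 4 * a := mul_le_mul_of_nonneg_right hδκ ha0.le
    linarith
  -- the good list
  have hgood : Good (gq Q) (lc Lp c) U := good_of_reg Lp c U fun i hi x hx => by
    have := hreg i (by omega) hi x hx
    exact this
  have htot : C₂ * (1 + M) * a ≤ tot E (lc Lp c) := by
    refine le_trans ?_ (tot_lc hK1 hE Lp c)
    rw [← hr, ← hB, ← hT]
    have h1 : K * (κ / 4 * a) ≤ K * T := mul_le_mul_of_nonneg_left s9 (by linarith)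
    have h2 : (r : ℝ) * (K * B) ≤ K * (κ / 8 * a) := by
      have h3 := mul_le_mul_of_nonneg_right hrc hB0
      have h4 := mul_le_mul_of_nonneg_right hδc ha0.le
      have h5 : (r : ℝ) * B ≤ κ / 8 * a := by linarith
      have h6 := mul_le_mul_of_nonneg_left h5 (by linarith : 0 ≤ K)
      linarith
    have h3 : C₂ * (1 + M) * a ≤ K * (κ / 8 * a) := by
      have h4 : 8 * (C₂ * (1 + M)) / κ ≤ K := le_max_right _ _
      rw [div_le_iff₀ hκ] at h4
      have h5 := mul_le_mul_of_nonneg_right h4 ha0.le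
      linarith
    have h4 : K * (κ / 4 * a) = K * (κ / 8 * a) + K * (κ / 8 * a) := by ring
    linarith
  refine ⟨U, hUA, hU, s8, fun V hV hVM => ?_⟩
  have hv0 := log_card_nonneg V
  have h1 := hcore Q (lc Lp c) U V hQ (by
      intro b hb
      have h2 : b.1 ∈ (lc Lp c).map Prod.fst := List.mem_map_of_mem hb
      rw [lc_fst] at h2
      exact hPQ ((hmem _).1 h2)) hU hV (fun h => h0 (hUA h)) (by
      intro x hx y hy hxy q hq
      have h4 := hdet₂ x (hUA₂ hx) y (hUA₂ hy) (by
        funext p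
        split_ifs with hp
        · have h5 : p ∈ (lc Lp c).map Prod.fst := by
            rw [lc_fst]
            exact (hmem p).2 hp
          obtain ⟨b, hb, hbp⟩ := List.mem_map.1 h5
          rw [← hbp]
          exact hxy b hb
        · rfl)
      have h5 := congrFun h4 q
      simpa [hq] using h5) hgood (by
      refine le_trans ?_ htot
      rw [mul_assoc]
      refine mul_le_mul_of_nonneg_left ?_ hC₂.le
      linarith)
  refine h1.trans ?_
  rw [lc_length, ← hr, ← hu]
  have h2 : (r : ℝ) * L₀ ≤ δ₁ / 4 * a := by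
    have h3 := mul_le_mul_of_nonneg_right hrc hL₀.le
    have h4 := mul_le_mul_of_nonneg_right hδd ha0.le
    linarith
  have h3 : a / 2 ≤ u := by
    have : 1 / 2 * a ≤ (1 - δ₁) * a := mul_le_mul_of_nonneg_right (by linarith) ha0.le
    linarith
  have h4 : δ₁ / 4 * a ≤ δ₁ / 2 * u := by nlinarith
  have h5 : 0 ≤ δ₁ / 2 * Real.log V.card := by positivity
  linarith

end Pool.Agent.T2H12.KG
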