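import Mathlib
import Pool.Agent.T2H12.KF.Lines
import Pool.Agent.T2H12.KG.Side
import Pool.Agent.Y359.PE.Pow

/-!
# Few independent popular primes: the dichotomy
-/

set_option autoImplicit false

namespace Pool.Agent.T2H12.KG

open Finset
open scoped Classical
open Pool.Agent.Y359.PE Pool.Agent.T2H12.KF

lemma ts_card_ge {A B : Finset ℤ} (hA : A.Nonempty) (k : ℕ) : B.card ≤ (ts A B k).card := by
  obtain ⟨x, hx⟩ := hA
  have h2 : (B.image fun y => (∑ _i : Fin k, x) + y).card = B.card :=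
    card_image_of_injective _ fun y z h => add_left_cancel h
  have h3 : (B.image fun y => (∑ _i : Fin k, x) + y) ⊆ ts A B k := by
    intro y hy
    rw [mem_image] at hy
    obtain ⟨z, hz, rfl⟩ := hy
    unfold ts
    rw [mem_image]
    exact ⟨(fun _ => x, z), mem_product.2 ⟨Fintype.mem_piFinset.2 fun _ => hx, hz⟩, rfl⟩
  rw [← h2]
  exact card_le_card h3

lemma ts_mono {A A' B : Finset ℤ} (h : A ⊆ A') (k : ℕ) : ts A B k ⊆ ts A' B k := by
  unfold ts
  exact image_subset_image (product_subset_product (Fintype.piFinset_subset _ _ fun _ => h)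
    (Subset.refl _))

/-- the entropy of the part prime to `Q` -/
lemma h_gq_le (A : Finset ℤ) (hA : A.Nonempty) (h0 : (0 : ℤ) ∉ A) (Q : Finset ℕ)
    (hQ : ∀ q ∈ Q, q.Prime) (e : ℕ → ℕ) :
    h A (gq Q) ≤ h A (mk (pr A \ Q) (X e)) + Real.log 2 := by
  have hne : ∀ x ∈ A, x ≠ 0 := fun x hx h => h0 (h ▸ hx)
  have h1 : h A (gq Q) ≤ h A (fun x => (mk (pr A \ Q) (X e) x, decide (0 < x))) := by
    refine h_mono _ _ _ fun x hx y hy hxy => ?_
    rw [Prod.mk.injEq, mk_X_eq_iff, decide_eq_decide] at hxy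
    rw [gq_eq_iff hQ (hne x hx) (hne y hy)]
    refine ⟨hxy.2, fun q hq => ?_⟩
    by_cases hp : q ∈ pr A
    · exact hxy.1 q (mem_sdiff.2 ⟨hp, hq⟩)
    · rw [fa_eq_zero hx hp, fa_eq_zero hy hp]
  have h2 := ce_le_h A (mk (pr A \ Q) (X e)) (fun x : ℤ => decide (0 < x))
  unfold ce at h2
  have h3 := h_bool_le hA (fun x : ℤ => decide (0 < x))
  linarith

/-- the condition that the exponents at `Q` are determined by those at `P` up to few possible
values -/
def Det (P Q : Finset ℕ) (δ : ℝ) (A : Finset ℤ) : Prop :=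
  ∀ x ∈ A, (((cl A (fun y => fun p => if p ∈ P then fa y p else 0) x).image
    fun y => fun q => if q ∈ Q then fa y q else 0).card : ℝ) ≤ Real.exp (δ * Real.log A.card)

/-- **Long fibres on the average.** -/
theorem fibres (m : ℕ) {κ ε : ℝ} (hκ : 0 < κ) (hε : 0 < ε) (hε1 : ε ≤ 1) :
    ∃ δ c : ℝ, 0 < δ ∧ 0 < c ∧ ∀ (A : Finset ℤ) (P Q : Finset ℕ), A.Nonempty →
      (0 : ℤ) ∉ A → (∀ q ∈ Q, q.Prime) → P ⊆ Q → (P.card : ℝ) ≤ δ * Real.log A.card →
      Det P Q δ A → h A (gq Q) ≤ (1 - κ) * Real.log A.card →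
      ∀ B : Finset ℤ, B.Nonempty →
        c * ((A.card : ℝ) ^ m * B.card) ^ (1 - ε) ≤ (ts A B m).card := by
  have hm0 : (0 : ℝ) ≤ m := Nat.cast_nonneg m
  set δ₁ : ℝ := min (min (κ / 4) (1 / 2)) (ε / (4 * (m + 1))) with hδ₁d
  have hδ₁ : 0 < δ₁ := by positivity
  have hδκ : δ₁ ≤ κ / 4 := (min_le_left _ _).trans (min_le_left _ _)
  have hδ2 : δ₁ ≤ 1 / 2 := (min_le_left _ _).trans (min_le_right _ _)
  have hδm : δ₁ * (m + 1) ≤ ε / 4 := by
    have h1 : δ₁ ≤ ε / (4 * (m + 1)) := min_le_right _ _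
    have h2 := mul_le_mul_of_nonneg_right h1 (by linarith : (0 : ℝ) ≤ m + 1)
    have h3 : ε / (4 * ((m : ℝ) + 1)) * (m + 1) = ε / 4 := by field_simp
    linarith
  set M : ℝ := m + m / ε + 1 with hM
  obtain ⟨δ, a₀, hδ, ha₀, hside⟩ := sum_side hκ hδ₁ hδκ hδ2 M
  refine ⟨δ, Real.exp (-(m * a₀)), hδ, Real.exp_pos _, ?_⟩
  intro A P Q hA h0 hQ hPQ hP hdet hH B hB
  have hAc : (1 : ℝ) ≤ A.card := by exact_mod_cast card_pos.2 hA
  have hA0 : (0 : ℝ) < A.card := by linarith
  set a := Real.log A.card with had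
  have ha : 0 ≤ a := Real.log_nonneg hAc
  have hBc : (1 : ℝ) ≤ B.card := by exact_mod_cast card_pos.2 hB
  have hB0 : (0 : ℝ) < B.card := by linarith
  set b := Real.log B.card with hbd
  have hb : 0 ≤ b := Real.log_nonneg hBc
  have hX : (0 : ℝ) < (A.card : ℝ) ^ m * B.card := by positivity
  have hlX : Real.log ((A.card : ℝ) ^ m * B.card) = m * a + b := by
    rw [Real.log_mul (by positivity) hB0.ne', Real.log_pow]
  have htB : (B.card : ℝ) ≤ (ts A B m).card := by exact_mod_cast ts_card_ge hA m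
  have htp : (0 : ℝ) < (ts A B m).card := by linarith
  have hXp : (0 : ℝ) < ((A.card : ℝ) ^ m * B.card) ^ (1 - ε) := Real.rpow_pos_of_pos hX _
  have hb1 : b ≤ Real.log (ts A B m).card := Real.log_le_log hB0 htB
  rw [← Real.log_le_log_iff (mul_pos (Real.exp_pos _) hXp) htp,
    Real.log_mul (Real.exp_pos _).ne' hXp.ne', Real.log_exp, Real.log_rpow hX, hlX]
  have hma0 : 0 ≤ m * a₀ := by positivity
  rcases lt_or_ge a a₀ with haa | haa
  · -- small sets
    have h1 : m * a ≤ m * a₀ := mul_le_mul_of_nonneg_left haa.le hm0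
    have h2 : 0 ≤ ε * (m * a + b) := by positivity
    linarith
  rcases lt_or_ge (m / ε * a) b with hbb | hbb
  · -- large `B`
    have h1 : m * a ≤ ε * b := by
      have h2 := mul_le_mul_of_nonneg_left hbb.le hε.le
      have h3 : ε * (m / ε * a) = m * a := by field_simp
      linarith
    have h2 : (1 - ε) * (m * a + b) ≤ (1 - ε) * (ε * b + b) :=
      mul_le_mul_of_nonneg_left (by linarith) (by linarith)
    have h3 : 0 ≤ ε ^ 2 * b := by positivity
    have h4 : (1 - ε) * (ε * b + b) = b - ε ^ 2 * b := by ring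
    linarith
  · obtain ⟨U, hUA, hU, hu, hlo⟩ := hside A P Q hA h0 hQ hPQ haa hP hdet hH
    have hUc : (0 : ℝ) < U.card := by exact_mod_cast card_pos.2 hU
    set u := Real.log U.card with hud
    have hu0 : 0 ≤ u := log_card_nonneg U
    have hua : u ≤ a := Real.log_le_log hUc (by exact_mod_cast card_le_card hUA)
    have hδ₁1 : δ₁ ≤ 1 := by linarith
    have h1 := iterate_sums hU hB (η := δ₁) (k := m) hδ₁.le hδ₁1 (by
      intro j hj
      refine hlo _ (vs_nonempty hU hB j) ?_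
      have hVc : (0 : ℝ) < (vs U B j).card := by
        exact_mod_cast card_pos.2 (vs_nonempty hU hB j)
      have h2 : ((vs U B j).card : ℝ) ≤ (U.card : ℝ) ^ j * B.card := by
        exact_mod_cast vs_card_le U B j
      have h3 := Real.log_le_log hVc h2
      rw [Real.log_mul (by positivity) (by positivity), Real.log_pow] at h3
      have hjm : (j : ℝ) ≤ m := by exact_mod_cast hj.le
      have h4 : (j : ℝ) * u ≤ m * a := mul_le_mul hjm hua hu0 hm0
      have h5 : M * a = m * a + m / ε * a + a := by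
        rw [hM]
        ring
      rw [h5]
      linarith)
    have h2 : Real.log (vs U B m).card ≤ Real.log (ts A B m).card :=
      log_card_mono (vs_nonempty hU hB m) ((vs_sub U B m).trans (ts_mono hUA m))
    have h3 := one_add_mul_le_pow (a := -δ₁) (by linarith) m
    have h4 : (1 : ℝ) + -δ₁ = 1 - δ₁ := by ring
    rw [h4] at h3
    have h5 : 1 - ε / 4 ≤ (1 - δ₁) ^ m := by nlinarith
    have h6 : (1 - ε / 4) * (m * a + b) ≤ m * u + b := by
      have h7 : δ₁ * a ≤ ε / 4 * a := mul_le_mul_of_nonneg_right (by nlinarith) ha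
      have h8 : (m : ℝ) * ((1 - ε / 4) * a) ≤ m * u :=
        mul_le_mul_of_nonneg_left (by linarith) hm0
      have h9 : 0 ≤ ε / 4 * b := by positivity
      linarith
    have h7 : (1 - ε / 4) * ((1 - ε / 4) * (m * a + b)) ≤ (1 - δ₁) ^ m * (m * u + b) := by
      refine mul_le_mul h5 h6 ?_ (by linarith)
      have : 0 ≤ (m : ℝ) * a + b := by positivity
      have : (0 : ℝ) ≤ 1 - ε / 4 := by linarith
      positivity
    have h8 : (1 - ε) * (m * a + b) ≤ (1 - ε / 4) * ((1 - ε / 4) * (m * a + b)) := by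
      have h9 : 0 ≤ (m : ℝ) * a + b := by positivity
      have h10 : 1 - ε ≤ (1 - ε / 4) * (1 - ε / 4) := by nlinarith
      rw [← mul_assoc]
      exact mul_le_mul_of_nonneg_right h10 h9
    linarith

/-- **The dichotomy.** -/
theorem dich (k m : ℕ) (hk : 1 ≤ k) {ε : ℝ} (hε : 0 < ε) (hε1 : ε ≤ 1) :
    ∃ L δ c : ℝ, 1 ≤ L ∧ 0 < δ ∧ 0 < c ∧ ∀ (A : Finset ℤ) (P Q : Finset ℕ), A.Nonempty →
      (0 : ℤ) ∉ A → (∀ q ∈ Q, q.Prime) → P ⊆ Q → (P.card : ℝ) ≤ δ * Real.log A.card →
      Det P Q δ A →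
      (∀ p : ℕ, p.Prime → p ∉ Q → ∃ e : ℕ,
        L * ((A.filter fun a => fa a p ≠ e).card : ℝ) ≤ A.card) →
      c * (A.card : ℝ) ^ ((k : ℝ) - ε) ≤ (pk k A).card ∨
      ∀ B : Finset ℤ, B.Nonempty →
        c * ((A.card : ℝ) ^ m * B.card) ^ (1 - ε) ≤ (ts A B m).card := by
  have hkr : (1 : ℝ) ≤ k := by exact_mod_cast hk
  have hl2 : 0 < Real.log 2 := Real.log_pos (by norm_num)
  set κ : ℝ := ε / (4 * k) with hκd
  have hκ : 0 < κ := by positivity
  have hκk : κ * k = ε / 4 := by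
    rw [hκd]
    field_simp
  have hκ1 : κ ≤ 1 / 4 := by nlinarith
  obtain ⟨δ, c₁, hδ, hc₁, hfib⟩ := fibres m hκ hε hε1
  set l₀ : ℝ := max 6 (k * (4 + k) / κ) with hl₀
  have hl₀6 : 6 ≤ l₀ := le_max_left _ _
  refine ⟨Real.exp l₀, δ, min c₁ (Real.exp (-(k * Real.log 2))),
    Real.one_le_exp (by linarith), hδ, by positivity, ?_⟩
  intro A P Q hA h0 hQ hPQ hP hdet hpop
  have hAc : (1 : ℝ) ≤ A.card := by exact_mod_cast card_pos.2 hA
  have hA0 : (0 : ℝ) < A.card := by linarith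
  set a := Real.log A.card with had
  have ha : 0 ≤ a := Real.log_nonneg hAc
  have hkεa : (k : ℝ) * κ * a = ε / 4 * a := by rw [mul_comm (k : ℝ) κ, hκk]
  by_cases hH : h A (gq Q) ≤ (1 - κ) * a
  · right
    intro B hB
    refine le_trans ?_ (hfib A P Q hA h0 hQ hPQ hP hdet hH B hB)
    exact mul_le_mul_of_nonneg_right (min_le_left _ _) (Real.rpow_nonneg (by positivity) _)
  · left
    rw [not_le] at hH
    choose! e he using hpop
    have hT : ∀ p ∈ pr A \ Q, Real.exp l₀ * ((A.filter fun a => fa a p ≠ e p).card : ℝ) ≤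
        A.card := by
      intro p hp
      obtain ⟨hp1, hp2⟩ := mem_sdiff.1 hp
      exact he p (prime_of_mem_pr hp1) hp2
    have h1 := prod_of_entropy A hA h0 (pr A \ Q) e k hk (L := Real.exp l₀) (γ := κ)
      (by rw [Real.one_lt_exp_iff]; linarith) (by rw [Real.log_exp]; linarith) (by linarith)
      (by
        rw [Real.log_exp, div_le_iff₀ (by linarith)]
        have h2 : (k : ℝ) * (4 + k) / κ ≤ l₀ := le_max_right _ _
        rw [div_le_iff₀ hκ] at h2
        linarith) hT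
    have h2 := h_gq_le A hA h0 Q hQ e
    have hpp : (0 : ℝ) < (pk k A).card := by
      have := pk_nonempty (k := k) hA
      exact_mod_cast card_pos.2 this
    have hXp : (0 : ℝ) < (A.card : ℝ) ^ ((k : ℝ) - ε) := Real.rpow_pos_of_pos hA0 _
    have hc0 : (0 : ℝ) < min c₁ (Real.exp (-(k * Real.log 2))) := by positivity
    rw [← Real.log_le_log_iff (mul_pos hc0 hXp) hpp, Real.log_mul hc0.ne' hXp.ne',
      Real.log_rpow hA0]
    have hlc : Real.log (min c₁ (Real.exp (-(k * Real.log 2)))) ≤ -(k * Real.log 2) := by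
      have h1 := Real.log_le_log hc0 (min_le_right c₁ (Real.exp (-(k * Real.log 2))))
      rwa [Real.log_exp] at h1
    have h3 : (1 - κ) * k * ((1 - κ) * a - Real.log 2) ≤
        (1 - κ) * k * h A (mk (pr A \ Q) (X e)) := by
      refine mul_le_mul_of_nonneg_left (by linarith) ?_
      have : 0 ≤ 1 - κ := by linarith
      positivity
    have h4 : (k - ε) * a - k * Real.log 2 ≤ (1 - κ) * k * ((1 - κ) * a - Real.log 2) := by
      have h5 : (1 - κ) * k * ((1 - κ) * a - Real.log 2) = k * a - 2 * (k * κ * a) +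
          κ * (k * κ * a) - k * Real.log 2 + k * κ * Real.log 2 := by ring
      rw [h5, hkεa]
      have h6 : 0 ≤ κ * (ε / 4 * a) := by positivity
      have h7 : 0 ≤ (k : ℝ) * κ * Real.log 2 := by positivity
      have h8 : 0 ≤ ε / 2 * a := by positivity
      linarith
    linarith

end Pool.Agent.T2H12.KG
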